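import Pool.Agent.H726.GB.FK3

/-!
The random-cluster model on a finite graph with vertices in `ℤ²` and a wired set `W`.  Let `A` and
`B` be two edge configurations in a finite window which have the same clusters.  Given the partition
of the vertices into clusters (hence given the wired cluster and its boundary, up to microscopic
loops), and for every set of places which is chosen depending on the partition (for instance along
the interface), the numbers of places with the pattern `A` and with the pattern `B` are in the ratio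
`x^(|A| - |B|)`, up to self-normalised Gaussian fluctuations, whatever the weight of the partition.
-/

set_option autoImplicit false

namespace Pool.Agent.Results.MP_216314_pr.BalanceGivenClusters

open scoped Classical

/-- `u` and `v` are in the same cluster of the edge configuration `ω`, the set `W` being wired; the
relation `Conn ω W` is the partition into clusters -/
def Conn (ω : Finset (Sym2 (ℤ × ℤ))) (W : Set (ℤ × ℤ)) : ℤ × ℤ → ℤ × ℤ → Prop :=
  Relation.ReflTransGen (fun u v => s(u, v) ∈ ω ∨ (u ∈ W ∧ v ∈ W))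

/-- the weight `x^|ω| g(partition of ω)`.  The random-cluster model has
`g(ρ) = q^(number of clusters of ρ)`; that model conditioned on the event that the partition is in
the set `Γ` has `g(ρ) = q^(number of clusters of ρ)` for `ρ ∈ Γ` and `g(ρ) = 0` for `ρ ∉ Γ`. -/
noncomputable def weight (x : ℝ) (g : (ℤ × ℤ → ℤ × ℤ → Prop) → ℝ) (W : Set (ℤ × ℤ))
    (ω : Finset (Sym2 (ℤ × ℤ))) : ℝ := x ^ ω.card * g (Conn ω W)

/-- the probability of `Q` in the model with this weight on the graph with the edges `E` -/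
noncomputable def prob (x : ℝ) (g : (ℤ × ℤ → ℤ × ℤ → Prop) → ℝ) (E : Finset (Sym2 (ℤ × ℤ)))
    (W : Set (ℤ × ℤ)) (Q : Finset (Sym2 (ℤ × ℤ)) → Prop) : ℝ :=
  (∑ ω ∈ E.powerset.filter Q, weight x g W ω) / ∑ ω ∈ E.powerset, weight x g W ω

/-- translation of a set of edges -/
def shift (z : ℤ × ℤ) (F : Finset (Sym2 (ℤ × ℤ))) : Finset (Sym2 (ℤ × ℤ)) :=
  F.image (Sym2.map (z + ·))

/-- the number of places `z` in the set `D (partition of ω)` such that the window `z + Λ` is in the
graph and the configuration in the window is `z + A` -/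
noncomputable def N (Λ E : Finset (Sym2 (ℤ × ℤ))) (W : Set (ℤ × ℤ))
    (D : (ℤ × ℤ → ℤ × ℤ → Prop) → Finset (ℤ × ℤ)) (A ω : Finset (Sym2 (ℤ × ℤ))) : ℕ :=
  ((D (Conn ω W)).filter (fun z => shift z Λ ⊆ E ∧ ω ∩ shift z Λ = shift z A)).card

/-- **Theorem.** Let `x > 0`, and let `A`, `B` be two edge configurations in the finite window `Λ`
with the same clusters. There is `c > 0` such that for every finite graph with vertices in `ℤ²` and
edges `E`, every wired set `W`, every weight `g ≥ 0` of the partition into clusters, every choice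
`D` of at most `m` places depending on the partition and every `t ≥ 0`,
`P (|x^|B| N_A - x^|A| N_B| > t √(N_A + N_B)) ≤ 2 e m e^(-c t²)`. -/
theorem result (x : ℝ) (hx : 0 < x) (Λ A B : Finset (Sym2 (ℤ × ℤ))) (hA : A ⊆ Λ) (hB : B ⊆ Λ)
    (hAB : ∀ u v, Conn A ∅ u v ↔ Conn B ∅ u v) :
    ∃ c : ℝ, 0 < c ∧ ∀ (E : Finset (Sym2 (ℤ × ℤ))) (W : Set (ℤ × ℤ))
      (g : (ℤ × ℤ → ℤ × ℤ → Prop) → ℝ), (∀ ρ, 0 ≤ g ρ) →
      ∀ (D : (ℤ × ℤ → ℤ × ℤ → Prop) → Finset (ℤ × ℤ)) (m : ℕ), (∀ ρ, (D ρ).card ≤ m) →
      ∀ t : ℝ, 0 ≤ t →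
      prob x g E W (fun ω => t * Real.sqrt (N Λ E W D A ω + N Λ E W D B ω) <
        |x ^ B.card * N Λ E W D A ω - x ^ A.card * N Λ E W D B ω|) ≤
      2 * Real.exp 1 * m * Real.exp (-(c * t ^ 2)) := by
  have h : H726.FK.OK2 Λ A B := ⟨hA, hB, hAB⟩
  obtain ⟨c, hc, h1⟩ := H726.FK.part_balance hx h
  refine ⟨c, hc, fun E W g hg D m hm t ht => ?_⟩
  have h2 := h1 E W g hg D m hm t ht
  have hZ : 0 ≤ ∑ ω ∈ E.powerset, weight x g W ω := by
    refine Finset.sum_nonneg fun ω _ => ?_
    unfold weight
    exact mul_nonneg (by positivity) (hg _)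
  have eN : ∀ F ω, N Λ E W D F ω = (H726.FK.pl2 D E W Λ F ω).card := by
    intro F ω
    unfold N H726.FK.pl2
    congr 1
  unfold prob
  rcases hZ.eq_or_lt with hZ0 | hZ0
  · rw [← hZ0, div_zero]
    positivity
  rw [div_le_iff₀ hZ0]
  refine le_trans (le_of_eq ?_) h2
  apply Finset.sum_congr _ fun _ _ => rfl
  apply Finset.ext
  intro ω
  rw [Finset.mem_filter, Finset.mem_filter, eN, eN]

end Pool.Agent.Results.MP_216314_pr.BalanceGivenClusters
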