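import Pool.Agent.R965.ST.Top

/-!
# Slow times of the critical interface: dimension `1 - Θ(θ ^ (-14))`

Critical bond percolation (`q = 1`) on `δ ℤ²` in a rectangle `D = (-A, B) × (0, H)`, with the
counterclockwise boundary arc from `a = t + i H` to `b = 0` wired and the other one dual-wired. The
interface is parametrised by its number of steps: `Rect.curve` is the piecewise linear curve on
`[0, 1]` run at constant speed, and `Rect.time` is the number of steps times `δ ^ (7/4)`; `Rect.law`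
is the law of (curve, time). Weak limits exist along a subsequence of every sequence of meshes.

Let `p = (f, T)` be a sample of a weak limit. A time `u` is `θ`-slow if for arbitrarily small `h`
the interface stays in the ball of radius `θ h ^ (4/7) (log (1/h)) ^ (-1/14)` around `f u` during
the natural time `h` before and after `u`. (At typical times this radius is at least of the order
`h ^ (4/7) (log log (1/h)) ^ (-1/14)`; at no time is it smaller than a constant times
`h ^ (4/7) (log (1/h)) ^ (-1/14)`.) There are universal constants `c`, `C`, `θ₀` such that in every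
rectangle, for every weak limit, almost surely, simultaneously for all `θ ≥ θ₀` and all `s < t`, the
`θ`-slow times in `[s, t]` have Hausdorff dimension between `1 - C θ ^ (-14)` and
`1 - c θ ^ (-14)`, and their images have Hausdorff dimension between `7/4 (1 - C θ ^ (-14))` and
`7/4 (1 - c θ ^ (-14))`.

Definitions: `chi`, `Slow` below; `Pool.Agent.H984R4.NP.Model` (`Rect`, `pos`, `clamp`, `pl`, `X`,
`Rect.dm`, `Rect.curve`, `Rect.time`, `Rect.law`), `Pool.Agent.H984R4.NP.Defs` (`Dm`, `Dm.edges`,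
`Dm.wir`, `Dm.cfg`, `Dm.walk`, `Dm.len`) and `Pool.Agent.H984R3.Per.Defs` (states, `ae`, `mv`, `rt`,
`nxt`, `orb`).

Plan of the proof. Slow times are thick times, so the upper bound follows from the starting files.
The lower bound needs contiguous slow pieces (the starting files only find balls with a large
occupation time): they are produced by the trial of `Pool.Agent.R965.CS`, a tube with a comb of `k`
teeth at the tip of the interface inside which the interface crosses once, without leaving the tube,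
and which it fills, of probability at least `exp (-K k²)`; with `k² ~ q² log (1/w)` such pieces are
ubiquitous at the scale `w` up to the power `w ^ (-C q²)`.
-/

set_option autoImplicit false

namespace Pool.Agent.Results.MP_216314_pr.SlowTimes

open H984N MeasureTheory Filter Topology

/-- `χ(h) = h ^ (4/7) (log (1/h)) ^ (-1/14)` -/
noncomputable def chi (h : ℝ) : ℝ := h ^ (4/7 : ℝ) / Real.log (1 / h) ^ (1/14 : ℝ)

/-- `u` is a `θ`-slow time of `p = (f, T)`: for arbitrarily small `h > 0`, `f` stays within distance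
`θ χ(h)` of `f u` at all times `v` with `T |v - u| ≤ h`. -/
def Slow (θ : ℝ) (p : X) (u : unitInterval) : Prop :=
  ∃ᶠ h : ℝ in 𝓝[>] 0, ∀ v : unitInterval, p.2 * |(v : ℝ) - u| ≤ h →
    dist (p.1 v) (p.1 u) ≤ θ * chi h

theorem result : ∃ c C θ₀ : ℝ, 0 < c ∧ 0 < C ∧ 0 < θ₀ ∧ C / θ₀ ^ 14 < 1 ∧ ∀ R : Rect,
    (∀ δ : ℕ → ℝ, (∀ i, 0 < δ i) → Tendsto δ atTop (𝓝 0) →
      ∃ φ : ℕ → ℕ, StrictMono φ ∧ ∃ μ : ProbabilityMeasure X,
        Tendsto (fun i => R.law (δ (φ i))) atTop (𝓝 μ)) ∧
    ∀ δ : ℕ → ℝ, (∀ i, 0 < δ i) → Tendsto δ atTop (𝓝 0) → ∀ μ : ProbabilityMeasure X,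
      Tendsto (fun i => R.law (δ i)) atTop (𝓝 μ) →
      ∀ᵐ p ∂(μ : Measure X), 0 < p.2 ∧ ∀ θ : ℝ, θ₀ ≤ θ → ∀ s t : unitInterval, s < t →
        (ENNReal.ofReal (1 - C / θ ^ 14) ≤ dimH {u | u ∈ Set.Icc s t ∧ Slow θ p u} ∧
          dimH {u | u ∈ Set.Icc s t ∧ Slow θ p u} ≤ ENNReal.ofReal (1 - c / θ ^ 14)) ∧
        (ENNReal.ofReal (7 / 4 * (1 - C / θ ^ 14)) ≤
            dimH (p.1 '' {u | u ∈ Set.Icc s t ∧ Slow θ p u}) ∧
          dimH (p.1 '' {u | u ∈ Set.Icc s t ∧ Slow θ p u}) ≤
            ENNReal.ofReal (7 / 4 * (1 - c / θ ^ 14))) := by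
  obtain ⟨c, C, θ0, hc, hC, hθ0, hCθ, h⟩ := Pool.Agent.R965.ST.slow_times
  refine ⟨c, C, θ0, hc, hC, hθ0, hCθ, fun R => ⟨(h R).1, fun δ hδ hlim μ hμ => ?_⟩⟩
  filter_upwards [(h R).2 δ hδ hlim μ hμ] with p hp
  refine ⟨hp.1, fun θ hθ s t hst => ?_⟩
  obtain ⟨h1, h2⟩ := hp.2.2 θ hθ
  have e1 : {u | u ∈ Set.Icc s t ∧ Slow θ p u} =
      Set.Icc s t ∩ Pool.Agent.R965.ST.Sl θ p := rfl
  have h3 : dimH (Set.Icc s t ∩ Pool.Agent.R965.ST.Sl θ p) ≤
      ENNReal.ofReal (1 - c / θ ^ 14) :=
    (dimH_mono Set.inter_subset_right).trans h1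
  have h4 := h2 s t hst
  have e3 : (7 / 4 : ENNReal) = ENNReal.ofReal (7 / 4) := by
    rw [ENNReal.ofReal_div_of_pos (by norm_num)]
    norm_num
  rw [e1, hp.2.1, e3, ENNReal.ofReal_mul (by norm_num), ENNReal.ofReal_mul (by norm_num)]
  exact ⟨⟨h4, h3⟩, mul_le_mul_right h4 _, mul_le_mul_right h3 _⟩

end Pool.Agent.Results.MP_216314_pr.SlowTimes
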