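import Pool.Agent.R965.CS.Top

/-!
# The smallest diameter of the pieces of given duration of the critical interface

Critical bond percolation (`q = 1`) on `δ ℤ²` in a rectangle `D = (-A, B) × (0, H)`, with the
counterclockwise boundary arc from `a = t + i H` to `b = 0` wired and the other one dual-wired. The
interface is parametrised by its number of steps: `Rect.curve` is the piecewise linear curve on
`[0, 1]` run at constant speed, and `Rect.time` is the number of steps times `δ ^ (7/4)`; `Rect.law`
is the law of (curve, time). Weak limits exist along a subsequence of every sequence of meshes. For every weak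
limit `(f, T)`, almost surely, on every time interval `[s, t]`, `s < t`, the smallest diameter of
the pieces `f [u, v]`, `s ≤ u ≤ v ≤ t`, of natural duration `T (v - u) = h` is between `c χ(h)` and
`C χ(h)` for all small `h`, where `χ(h) = h ^ (4/7) (log (1/h)) ^ (-1/14)`.

Definitions: `chi` below; `Pool.Agent.H984R4.NP.Model` (`Rect`, `pos`, `clamp`, `pl`, `X`,
`Rect.dm`, `Rect.curve`, `Rect.time`, `Rect.law`), `Pool.Agent.H984R4.NP.Defs` (`Dm`, `Dm.edges`,
`Dm.wir`, `Dm.cfg`, `Dm.walk`, `Dm.len`) and `Pool.Agent.H984R3.Per.Defs` (states, `ae`, `mv`, `rt`,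
`nxt`, `orb`).

Plan of the proof. The lower bound follows from the upper bound of the starting files for the
occupation time of all balls. The upper bound needs contiguous slow pieces (the starting files only
find balls with a large occupation time): the trial of the new files `Pool.Agent.R965.CS` produces,
at the tip of the path, a tube with a comb of `kk` teeth inside which the path crosses once, without
leaving the tube, and which it fills.
-/

set_option autoImplicit false

namespace Pool.Agent.Results.MP_216314_pr.SlowestPieces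

open H984N MeasureTheory Filter Topology

/-- `χ(h) = h ^ (4/7) (log (1/h)) ^ (-1/14)` -/
noncomputable def chi (h : ℝ) : ℝ := h ^ (4/7 : ℝ) / Real.log (1 / h) ^ (1/14 : ℝ)

theorem result (R : Rect) :
    (∀ δ : ℕ → ℝ, (∀ i, 0 < δ i) → Tendsto δ atTop (𝓝 0) →
      ∃ φ : ℕ → ℕ, StrictMono φ ∧ ∃ μ : ProbabilityMeasure X,
        Tendsto (fun i => R.law (δ (φ i))) atTop (𝓝 μ)) ∧
    ∃ c C : ℝ, 0 < c ∧ 0 < C ∧
    ∀ δ : ℕ → ℝ, (∀ i, 0 < δ i) → Tendsto δ atTop (𝓝 0) → ∀ μ : ProbabilityMeasure X,
      Tendsto (fun i => R.law (δ i)) atTop (𝓝 μ) →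
      ∀ᵐ p ∂(μ : Measure X), 0 < p.2 ∧
        (∀ᶠ h : ℝ in 𝓝[>] 0, ∀ u v : unitInterval, u ≤ v → p.2 * ((v : ℝ) - u) = h →
          c * chi h ≤ Metric.diam (p.1 '' Set.Icc u v)) ∧
        ∀ s t : unitInterval, s < t → ∀ᶠ h : ℝ in 𝓝[>] 0, ∃ u v : unitInterval,
          s ≤ u ∧ u ≤ v ∧ v ≤ t ∧ p.2 * ((v : ℝ) - u) = h ∧
            Metric.diam (p.1 '' Set.Icc u v) ≤ C * chi h :=
  Pool.Agent.R965.CS.mod_top R

end Pool.Agent.Results.MP_216314_pr.SlowestPieces
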